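import Pool.Agent.Y910.G.P5

set_option autoImplicit false

open IntermediateField

namespace Pool.Agent.Results.MP_821da1_nt.AllPlaneCurves

/-- The coordinate ring over `ℚ` of the affine plane curve `F = 0`. -/
abbrev CoordRing (F : MvPolynomial (Fin 2) ℤ) : Type :=
  MvPolynomial (Fin 2) ℚ ⧸ Ideal.span {MvPolynomial.map (Int.castRingHom ℚ) F}

/-- `A` is a place at infinity of the curve `F = 0`: a valuation ring of its function field `L`
that contains `ℚ` but not both coordinate functions. -/
def AtInfinity (F : MvPolynomial (Fin 2) ℤ) (L : Type) [Field L] [Algebra (CoordRing F) L]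
    (A : ValuationSubring L) : Prop :=
  (∀ q : ℚ, algebraMap (CoordRing F) L (algebraMap ℚ (CoordRing F) q) ∈ A) ∧
    ∃ i : Fin 2, algebraMap (CoordRing F) L (Ideal.Quotient.mk _ (MvPolynomial.X i)) ∉ A

/-- Polynomial bound for the integer points on every plane curve that is irreducible over `ℚ`,
except when there is exactly one place at infinity and its degree is `1` or `2`; the only
constants not depending on the degree alone are attached to the real embeddings of the residue
field of that place. -/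
theorem result :
    ∃ (C : ℕ → ℕ) (c : ℕ → IntermediateField ℚ ℝ → ℕ), ∀ F : MvPolynomial (Fin 2) ℤ,
      Irreducible (MvPolynomial.map (Int.castRingHom ℚ) F) →
      ∀ (L : Type) [Field L] [Algebra (CoordRing F) L] [IsFractionRing (CoordRing F) L] (x y : ℤ),
        MvPolynomial.eval ![x, y] F = 0 →
        (x.natAbs ≤ (C F.totalDegree * ∑ m ∈ F.support, (F.coeff m).natAbs) ^ C F.totalDegree ∧
          y.natAbs ≤ (C F.totalDegree * ∑ m ∈ F.support, (F.coeff m).natAbs) ^
            C F.totalDegree) ∨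
        ∃ A : ValuationSubring L, (∀ A' : ValuationSubring L, AtInfinity F L A' ↔ A' = A) ∧
          ∃ g : Polynomial ℚ, g.Monic ∧ Irreducible g ∧
            Nonempty (IsLocalRing.ResidueField A ≃+* AdjoinRoot g) ∧
            ∃ η : ℝ, Polynomial.aeval η g = 0 ∧
              (g.natDegree ≤ 2 ∨
                (x.natAbs ≤ (c F.totalDegree ℚ⟮η⟯ * ∑ m ∈ F.support, (F.coeff m).natAbs) ^
                    C F.totalDegree ∧
                  y.natAbs ≤ (c F.totalDegree ℚ⟮η⟯ * ∑ m ∈ F.support, (F.coeff m).natAbs) ^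
                    C F.totalDegree)) := by
  choose C c hc using Pool.Agent.Y910.G.main
  refine ⟨C, c, ?_⟩
  intro F hirr L _ _ _ x y hxy
  have : Nontrivial (CoordRing F) := (algebraMap (CoordRing F) L).domain_nontrivial
  let _ : Algebra ℚ L :=
    ((algebraMap (CoordRing F) L).comp (algebraMap ℚ (CoordRing F))).toAlgebra
  obtain ⟨π, hπ⟩ : ∃ π : MvPolynomial (Fin 2) ℚ →ₐ[ℚ] L, ∀ w, π w
      = algebraMap (CoordRing F) L (Ideal.Quotient.mk _ w) :=
    ⟨{ toRingHom := (algebraMap (CoordRing F) L).comp (Ideal.Quotient.mk _)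
       commutes' := fun q => rfl }, fun w => rfl⟩
  have hker : ∀ w, π w = 0 ↔ MvPolynomial.map (Int.castRingHom ℚ) F ∣ w := by
    intro w
    rw [hπ, IsFractionRing.to_map_eq_zero_iff, Ideal.Quotient.eq_zero_iff_mem,
      Ideal.mem_span_singleton]
  have hsurj : ∀ z : L, ∃ w1 w2, π w2 ≠ 0 ∧ π w2 * z = π w1 := by
    intro z
    obtain ⟨a, s, hs, hz⟩ := IsFractionRing.div_surjective (A := CoordRing F) z
    obtain ⟨w1, rfl⟩ := Ideal.Quotient.mk_surjective a
    obtain ⟨w2, rfl⟩ := Ideal.Quotient.mk_surjective s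
    have hne : π w2 ≠ 0 := by
      rw [hπ]
      exact IsFractionRing.to_map_ne_zero_of_mem_nonZeroDivisors hs
    refine ⟨w1, w2, hne, ?_⟩
    rw [← hz, ← hπ, ← hπ]
    field_simp
  rcases hc F.totalDegree F rfl hirr L π hker hsurj x y hxy with h | ⟨A, hA, g, h1, h2, h3, h4⟩
  · exact Or.inl h
  · right
    refine ⟨A, ?_, g, h1, h2, h3, h4⟩
    intro A'
    rw [← hA A', AtInfinity]
    apply and_congr Iff.rfl
    rw [Fin.exists_fin_two, hπ, hπ]
    tauto

end Pool.Agent.Results.MP_821da1_nt.AllPlaneCurves
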