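import Pool.Agent.Y910.E.E11

set_option autoImplicit false

namespace Pool.Agent.Results.MP_821da1_nt.BoundedExceptionsAllCurves

/-- The length of an integer polynomial: the sum of the absolute values of its coefficients. -/
def len (F : MvPolynomial (Fin 2) ℤ) : ℕ := ∑ m ∈ F.support, (F.coeff m).natAbs

/-- The coordinate ring over `ℚ` of the affine plane curve `F = 0`. -/
abbrev CoordRing (F : MvPolynomial (Fin 2) ℤ) : Type :=
  MvPolynomial (Fin 2) ℚ ⧸ Ideal.span {MvPolynomial.map (Int.castRingHom ℚ) F}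

/-- `A` is a place at infinity of the curve `F = 0`: a valuation ring of its function field `L`
that contains `ℚ` but not both coordinate functions. -/
def AtInfinity (F : MvPolynomial (Fin 2) ℤ) (L : Type) [Field L] [Algebra (CoordRing F) L]
    (A : ValuationSubring L) : Prop :=
  (∀ q : ℚ, algebraMap (CoordRing F) L (algebraMap ℚ (CoordRing F) q) ∈ A) ∧
    ∃ i : Fin 2, algebraMap (CoordRing F) L (Ideal.Quotient.mk _ (MvPolynomial.X i)) ∉ A

/-- The curve `F = 0`, with function field `L`, has exactly one place at infinity, and the residue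
field of this place is `ℚ[T]/(g)`, where `g` is monic and irreducible. -/
def OnePlace (F : MvPolynomial (Fin 2) ℤ) (g : Polynomial ℚ) : Prop :=
  g.Monic ∧ Irreducible g ∧ ∃ (L : Type) (_ : Field L) (_ : Algebra (CoordRing F) L)
    (_ : IsFractionRing (CoordRing F) L) (A : ValuationSubring L),
    (∀ A' : ValuationSubring L, AtInfinity F L A' ↔ A' = A) ∧
      Nonempty (IsLocalRing.ResidueField A ≃+* AdjoinRoot g)

/-- the theorem for a given function field -/
lemma bridge_aux {C N : ℕ} {F : MvPolynomial (Fin 2) ℤ}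
    (hC : ∀ (L : Type) [Field L] [Algebra ℚ L] (π : MvPolynomial (Fin 2) ℚ →ₐ[ℚ] L),
    (∀ w, π w = 0 ↔ MvPolynomial.map (Int.castRingHom ℚ) F ∣ w) →
    (∀ z : L, ∃ w1 w2, π w2 ≠ 0 ∧ π w2 * z = π w1) →
      (∀ s : Finset (ℤ × ℤ), (∀ P ∈ s, MvPolynomial.eval ![P.1, P.2] F = 0 ∧
        (C * len F) ^ C < max P.1.natAbs P.2.natAbs) → s.card ≤ N) ∨
      ∃ g : Polynomial ℚ, Pool.Agent.Y910.A.OnePlace π g ∧ g.natDegree ≤ 2 ∧
        ∃ η : ℝ, Polynomial.aeval η g = 0)
    (L : Type) [Field L] [Algebra (CoordRing F) L] [IsFractionRing (CoordRing F) L] :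
    (∀ s : Finset (ℤ × ℤ), (∀ P ∈ s, MvPolynomial.eval ![P.1, P.2] F = 0 ∧
        (C * len F) ^ C < max P.1.natAbs P.2.natAbs) → s.card ≤ N) ∨
      ∃ g : Polynomial ℚ, OnePlace F g ∧ g.natDegree ≤ 2 ∧ ∃ η : ℝ, Polynomial.aeval η g = 0 := by
  have : Nontrivial (CoordRing F) := (algebraMap (CoordRing F) L).domain_nontrivial
  let _ : Algebra ℚ L :=
    ((algebraMap (CoordRing F) L).comp (algebraMap ℚ (CoordRing F))).toAlgebra
  obtain ⟨π, hπ⟩ : ∃ π : MvPolynomial (Fin 2) ℚ →ₐ[ℚ] L, ∀ w, π w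
      = algebraMap (CoordRing F) L (Ideal.Quotient.mk _ w) :=
    ⟨{ toRingHom := (algebraMap (CoordRing F) L).comp (Ideal.Quotient.mk _)
       commutes' := fun q => rfl }, fun w => rfl⟩
  have hker : ∀ w, π w = 0 ↔ MvPolynomial.map (Int.castRingHom ℚ) F ∣ w := by
    intro w
    rw [hπ, IsFractionRing.to_map_eq_zero_iff, Ideal.Quotient.eq_zero_iff_mem,
      Ideal.mem_span_singleton]
  have hsurj : ∀ z : L, ∃ w1 w2, π w2 ≠ 0 ∧ π w2 * z = π w1 := by
    intro z
    obtain ⟨a, s, hs, hz⟩ := IsFractionRing.div_surjective (A := CoordRing F) z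
    obtain ⟨w1, rfl⟩ := Ideal.Quotient.mk_surjective a
    obtain ⟨w2, rfl⟩ := Ideal.Quotient.mk_surjective s
    have hne : π w2 ≠ 0 := by
      rw [hπ]
      exact IsFractionRing.to_map_ne_zero_of_mem_nonZeroDivisors hs
    refine ⟨w1, w2, hne, ?_⟩
    rw [← hz, ← hπ, ← hπ]
    field_simp
  rcases hC L π hker hsurj with h | ⟨g, ⟨A, hA, h1, h2, h3⟩, h4⟩
  · exact Or.inl h
  · right
    refine ⟨g, ⟨h1, h2, L, inferInstance, inferInstance, inferInstance, A, ?_, h3⟩, h4⟩
    intro A'
    rw [← hA A', AtInfinity]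
    apply and_congr Iff.rfl
    rw [Fin.exists_fin_two, hπ, hπ]
    tauto

/-- For every degree `d` there are `C` and `N` such that, for ALL the plane curves `F = 0` of degree
at most `d` that are irreducible over `ℚ`: at most `N` integer points of the curve have size
larger than `(C len F)^C`, or the curve has exactly one place at infinity, and the degree of this
place is `1` or `2` (and it is real). -/
theorem result : ∃ C N : ℕ → ℕ, ∀ (d : ℕ) (F : MvPolynomial (Fin 2) ℤ), F.totalDegree ≤ d →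
    Irreducible (MvPolynomial.map (Int.castRingHom ℚ) F) →
    Set.encard {P : ℤ × ℤ | MvPolynomial.eval ![P.1, P.2] F = 0 ∧
      (C d * len F) ^ C d < max P.1.natAbs P.2.natAbs} ≤ N d ∨
    ∃ g : Polynomial ℚ, OnePlace F g ∧ g.natDegree ≤ 2 ∧ ∃ t : ℝ, Polynomial.aeval t g = 0 := by
  choose C N hC using Pool.Agent.Y910.E.curves_few
  refine ⟨C, N, ?_⟩
  intro d F hd hirr
  have hprime : (Ideal.span {MvPolynomial.map (Int.castRingHom ℚ) F}).IsPrime :=
    (Ideal.span_singleton_prime hirr.ne_zero).2 hirr.prime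
  have hdom : IsDomain (CoordRing F) := Ideal.Quotient.isDomain _
  rcases bridge_aux (fun L _ _ π hker hsurj => hC d F hd hirr L π hker hsurj)
    (FractionRing (CoordRing F)) with h | h
  · left
    by_contra hcon
    push Not at hcon
    obtain ⟨s, hs1, hs2⟩ := Set.exists_subset_encard_eq (Order.add_one_le_of_lt hcon)
    have hfin : s.Finite := by
      apply Set.finite_of_encard_eq_coe (k := N d + 1)
      rw [hs2]; rfl
    have h1 := h hfin.toFinset (fun P hP => hs1 (hfin.mem_toFinset.1 hP))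
    rw [hfin.encard_eq_coe_toFinset_card] at hs2
    have h2 : hfin.toFinset.card = N d + 1 := by exact_mod_cast hs2
    omega
  · exact Or.inr h

end Pool.Agent.Results.MP_821da1_nt.BoundedExceptionsAllCurves
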