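import Pool.Agent.Y910.A.A18

set_option autoImplicit false

open IntermediateField

namespace Pool.Agent.Results.MP_821da1_nt.ExplicitFamiliesAllCurves

/-- The length of an integer polynomial: the sum of the absolute values of its coefficients. -/
def len (F : MvPolynomial (Fin 2) ℤ) : ℕ := ∑ m ∈ F.support, (F.coeff m).natAbs

/-- The coordinate ring over `ℚ` of the affine plane curve `F = 0`. -/
abbrev CoordRing (F : MvPolynomial (Fin 2) ℤ) : Type :=
  MvPolynomial (Fin 2) ℚ ⧸ Ideal.span {MvPolynomial.map (Int.castRingHom ℚ) F}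

/-- `A` is a place at infinity of the curve `F = 0`: a valuation ring of its function field `L`
that contains `ℚ` but not both coordinate functions. -/
def AtInfinity (F : MvPolynomial (Fin 2) ℤ) (L : Type) [Field L] [Algebra (CoordRing F) L]
    (A : ValuationSubring L) : Prop :=
  (∀ q : ℚ, algebraMap (CoordRing F) L (algebraMap ℚ (CoordRing F) q) ∈ A) ∧
    ∃ i : Fin 2, algebraMap (CoordRing F) L (Ideal.Quotient.mk _ (MvPolynomial.X i)) ∉ A

/-- The curve `F = 0`, with function field `L`, has exactly one place at infinity, and the residue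
field of this place is `ℚ[T]/(g)`, where `g` is monic and irreducible. -/
def OnePlace (F : MvPolynomial (Fin 2) ℤ) (g : Polynomial ℚ) : Prop :=
  g.Monic ∧ Irreducible g ∧ ∃ (L : Type) (_ : Field L) (_ : Algebra (CoordRing F) L)
    (_ : IsFractionRing (CoordRing F) L) (A : ValuationSubring L),
    (∀ A' : ValuationSubring L, AtInfinity F L A' ↔ A' = A) ∧
      Nonempty (IsLocalRing.ResidueField A ≃+* AdjoinRoot g)

/-- the structure theorem for the curve `F = 0`, for a given function field -/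
lemma bridge_aux {C : ℕ} {F : MvPolynomial (Fin 2) ℤ} {x y : ℤ}
    (hC : ∀ (L : Type) [Field L] [Algebra ℚ L] (π : MvPolynomial (Fin 2) ℚ →ₐ[ℚ] L),
    (∀ w, π w = 0 ↔ MvPolynomial.map (Int.castRingHom ℚ) F ∣ w) →
    (∀ z : L, ∃ w1 w2, π w2 ≠ 0 ∧ π w2 * z = π w1) →
      max x.natAbs y.natAbs ≤ (C * Pool.Agent.H322R2.len F) ^ C ∨
      ∃ g : Polynomial ℚ, Pool.Agent.Y910.A.OnePlace π g ∧ ∃ η : ℝ, Polynomial.aeval η g = 0 ∧
        Pool.Agent.Y910.A.Near C (((C * Pool.Agent.H322R2.len F : ℕ) : ℝ))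
          (((max x.natAbs y.natAbs : ℕ) : ℝ)) ℚ⟮η⟯)
    (L : Type) [Field L] [Algebra (CoordRing F) L] [IsFractionRing (CoordRing F) L] :
    Pool.Agent.Y910.A.SD C F (OnePlace F) (max x.natAbs y.natAbs) := by
  have : Nontrivial (CoordRing F) := (algebraMap (CoordRing F) L).domain_nontrivial
  let _ : Algebra ℚ L :=
    ((algebraMap (CoordRing F) L).comp (algebraMap ℚ (CoordRing F))).toAlgebra
  obtain ⟨π, hπ⟩ : ∃ π : MvPolynomial (Fin 2) ℚ →ₐ[ℚ] L, ∀ w, π w
      = algebraMap (CoordRing F) L (Ideal.Quotient.mk _ w) :=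
    ⟨{ toRingHom := (algebraMap (CoordRing F) L).comp (Ideal.Quotient.mk _)
       commutes' := fun q => rfl }, fun w => rfl⟩
  have hker : ∀ w, π w = 0 ↔ MvPolynomial.map (Int.castRingHom ℚ) F ∣ w := by
    intro w
    rw [hπ, IsFractionRing.to_map_eq_zero_iff, Ideal.Quotient.eq_zero_iff_mem,
      Ideal.mem_span_singleton]
  have hsurj : ∀ z : L, ∃ w1 w2, π w2 ≠ 0 ∧ π w2 * z = π w1 := by
    intro z
    obtain ⟨a, s, hs, hz⟩ := IsFractionRing.div_surjective (A := CoordRing F) z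
    obtain ⟨w1, rfl⟩ := Ideal.Quotient.mk_surjective a
    obtain ⟨w2, rfl⟩ := Ideal.Quotient.mk_surjective s
    have hne : π w2 ≠ 0 := by
      rw [hπ]
      exact IsFractionRing.to_map_ne_zero_of_mem_nonZeroDivisors hs
    refine ⟨w1, w2, hne, ?_⟩
    rw [← hz, ← hπ, ← hπ]
    field_simp
  rcases hC L π hker hsurj with h | ⟨g, ⟨A, hA, h1, h2, h3⟩, h4⟩
  · exact Or.inl h
  · right
    refine ⟨g, ⟨h1, h2, L, inferInstance, inferInstance, inferInstance, A, ?_, h3⟩, h4⟩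
    intro A'
    rw [← hA A', AtInfinity]
    apply and_congr Iff.rfl
    rw [Fin.exists_fin_two, hπ, hπ]
    tauto

/-- the structure theorem for the curve `F = 0` -/
lemma bridge {C : ℕ} {F : MvPolynomial (Fin 2) ℤ} {x y : ℤ}
    (hirr : Irreducible (MvPolynomial.map (Int.castRingHom ℚ) F))
    (hC : ∀ (L : Type) [Field L] [Algebra ℚ L] (π : MvPolynomial (Fin 2) ℚ →ₐ[ℚ] L),
    (∀ w, π w = 0 ↔ MvPolynomial.map (Int.castRingHom ℚ) F ∣ w) →
    (∀ z : L, ∃ w1 w2, π w2 ≠ 0 ∧ π w2 * z = π w1) →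
      max x.natAbs y.natAbs ≤ (C * Pool.Agent.H322R2.len F) ^ C ∨
      ∃ g : Polynomial ℚ, Pool.Agent.Y910.A.OnePlace π g ∧ ∃ η : ℝ, Polynomial.aeval η g = 0 ∧
        Pool.Agent.Y910.A.Near C (((C * Pool.Agent.H322R2.len F : ℕ) : ℝ))
          (((max x.natAbs y.natAbs : ℕ) : ℝ)) ℚ⟮η⟯) :
    Pool.Agent.Y910.A.SD C F (OnePlace F) (max x.natAbs y.natAbs) := by
  have hprime : (Ideal.span {MvPolynomial.map (Int.castRingHom ℚ) F}).IsPrime :=
    (Ideal.span_singleton_prime hirr.ne_zero).2 hirr.prime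
  have hdom : IsDomain (CoordRing F) := Ideal.Quotient.isDomain _
  exact bridge_aux hC (FractionRing (CoordRing F))

lemma ne_zero_of {F : MvPolynomial (Fin 2) ℤ}
    (hirr : Irreducible (MvPolynomial.map (Int.castRingHom ℚ) F)) : F ≠ 0 := by
  rintro rfl
  rw [map_zero] at hirr
  exact hirr.ne_zero rfl

/-- the bound, or one place at infinity whose residue field, embedded in the reals, meets `K` in
degree at most two -/
lemma final {R e d D : ℕ} (hD : 2 ≤ D)
    (hS : ∀ F : MvPolynomial (Fin 2) ℤ, F.totalDegree ≤ d →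
      Irreducible (MvPolynomial.map (Int.castRingHom ℚ) F) →
      ∀ (L : Type) [Field L] [Algebra ℚ L] (π : MvPolynomial (Fin 2) ℚ →ₐ[ℚ] L),
      (∀ w, π w = 0 ↔ MvPolynomial.map (Int.castRingHom ℚ) F ∣ w) →
      (∀ z : L, ∃ w1 w2, π w2 ≠ 0 ∧ π w2 * z = π w1) →
      ∀ x y : ℤ, MvPolynomial.eval ![x, y] F = 0 →
        max x.natAbs y.natAbs ≤ (D * Pool.Agent.H322R2.len F) ^ D ∨
        ∃ g : Polynomial ℚ, Pool.Agent.Y910.A.OnePlace π g ∧ ∃ η : ℝ, Polynomial.aeval η g = 0 ∧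
          Pool.Agent.Y910.A.Near D (((D * Pool.Agent.H322R2.len F : ℕ) : ℝ))
            (((max x.natAbs y.natAbs : ℕ) : ℝ)) ℚ⟮η⟯) :
    ∃ K : ℕ, 1 ≤ K ∧ ∀ {B : ℝ} {A : ℕ} {K₁ : IntermediateField ℚ ℝ},
      Pool.Agent.Y910.A.Anc R e B (A : ℝ) K₁ → B ^ K ≤ A →
      ∀ (F : MvPolynomial (Fin 2) ℤ) (x y : ℤ), F.totalDegree ≤ d →
        Irreducible (MvPolynomial.map (Int.castRingHom ℚ) F) →
        MvPolynomial.eval ![x, y] F = 0 →
        max x.natAbs y.natAbs ≤ (A * len F) ^ K ∨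
        ∃ g : Polynomial ℚ, OnePlace F g ∧ ∃ η : ℝ, Polynomial.aeval η g = 0 ∧
          Module.finrank ℚ ↥(ℚ⟮η⟯ ⊓ K₁) ≤ 2 := by
  obtain ⟨K, hK1, hK⟩ := Pool.Agent.Y910.A.anc_curve R e D hD
  refine ⟨K, by omega, ?_⟩
  intro B A K₁ hanc hBA F x y hd hirr hxy
  exact hK hanc hBA F (OnePlace F) (max x.natAbs y.natAbs) (ne_zero_of hirr)
    (bridge hirr (fun L _ _ π hker hsurj => hS F hd hirr L π hker hsurj x y hxy))

/-- Explicit families of residue fields and explicit families of equations.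
Part 1: `P(Y,T)` has top form `∏ (Y - ρᵢ T)` with distinct integers `ρᵢ`, and `K` is the field
generated by the real numbers `β` with `P(β, a) = 0`, `|a|` large.
Part 2: `K = ℚ(μ)`, `μ > 0`, `μ^r = P(a)`, `a` large, `P` monic of degree `r` with an irreducible
factor of multiplicity one.
In both parts all integer points on all plane curves satisfy an effective bound, unless the curve
has exactly one place at infinity, whose residue field has a real embedding meeting `K` in degree at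
most two.
Part 3: effective bounds for `x^{pr} - (a^r + s) y^{qr} = R(x,y)` and for
`∏ (x^p - (ρᵢ a + sᵢ) y^q) + c y^{qr} = R(x,y)`, `R` of lower weighted degree. -/
theorem result :
    (∃ C : ℕ → ℕ → ℕ, ∀ (m d : ℕ) (P : MvPolynomial (Fin 2) ℤ) (ρ : Fin m → ℤ) (a : ℤ),
      1 ≤ m → Function.Injective ρ → P.totalDegree = m →
      MvPolynomial.homogeneousComponent m P =
        ∏ i, (MvPolynomial.X 0 - MvPolynomial.C (ρ i) * MvPolynomial.X 1) →
      (2 * len P) ^ C m d ≤ a.natAbs →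
      ∀ (F : MvPolynomial (Fin 2) ℤ) (x y : ℤ), F.totalDegree ≤ d →
        Irreducible (MvPolynomial.map (Int.castRingHom ℚ) F) →
        MvPolynomial.eval ![x, y] F = 0 →
        max x.natAbs y.natAbs ≤ (a.natAbs * len F) ^ C m d ∨
        ∃ g : Polynomial ℚ, OnePlace F g ∧ ∃ η : ℝ, Polynomial.aeval η g = 0 ∧
          Module.finrank ℚ ↥(ℚ⟮η⟯ ⊓ IntermediateField.adjoin ℚ
            {β : ℝ | MvPolynomial.aeval ![β, (a : ℝ)] P = 0}) ≤ 2) ∧
    (∃ C : ℕ → ℕ → ℕ, ∀ (r d : ℕ) (P g₀ : Polynomial ℤ) (a : ℕ) (μ : ℝ),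
      1 ≤ r → P.Monic → P.natDegree = r → Irreducible g₀ → g₀ ∣ P → ¬ g₀ ^ 2 ∣ P →
      (2 * ∑ i ∈ P.support, (P.coeff i).natAbs) ^ C r d ≤ a →
      0 < μ → μ ^ r = ((P.eval (a : ℤ) : ℤ) : ℝ) →
      ∀ (F : MvPolynomial (Fin 2) ℤ) (x y : ℤ), F.totalDegree ≤ d →
        Irreducible (MvPolynomial.map (Int.castRingHom ℚ) F) →
        MvPolynomial.eval ![x, y] F = 0 →
        max x.natAbs y.natAbs ≤ (a * len F) ^ C r d ∨
        ∃ g : Polynomial ℚ, OnePlace F g ∧ ∃ η : ℝ, Polynomial.aeval η g = 0 ∧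
          Module.finrank ℚ ↥(ℚ⟮η⟯ ⊓ ℚ⟮μ⟯) ≤ 2) ∧
    (∀ r p q : ℕ, 3 ≤ r → 1 ≤ p → 1 ≤ q → Nat.Coprime p q → ∃ C : ℕ,
      (∀ (a : ℕ) (s : ℤ) (R : MvPolynomial (Fin 2) ℤ), s ≠ 0 → (2 * (1 + s.natAbs)) ^ C ≤ a →
        (∀ n ∈ R.support, q * n 0 + p * n 1 < p * q * r) →
        ∀ x y : ℤ, x ^ (p * r) - ((a : ℤ) ^ r + s) * y ^ (q * r) = MvPolynomial.eval ![x, y] R →
          max x.natAbs y.natAbs ≤ (a * (1 + len R)) ^ C) ∧
      (∀ (ρ s : Fin r → ℤ) (c a : ℤ) (R : MvPolynomial (Fin 2) ℤ), Function.Injective ρ → c ≠ 0 →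
        (2 * (∏ i, (1 + (ρ i).natAbs + (s i).natAbs) + c.natAbs)) ^ C ≤ a.natAbs →
        (∀ n ∈ R.support, q * n 0 + p * n 1 < p * q * r) →
        ∀ x y : ℤ, ∏ i, (x ^ p - (ρ i * a + s i) * y ^ q) + c * y ^ (q * r)
            = MvPolynomial.eval ![x, y] R →
          max x.natAbs y.natAbs ≤ (a.natAbs * (1 + len R)) ^ C)) := by
  choose D hD2 hD using Pool.Agent.Y910.A.struct_le
  refine ⟨?_, ?_, ?_⟩
  · choose K hK1 hK using fun m d =>
      final (R := m.factorial) (e := 10 * m.factorial + 2 * m ^ 2 + 1) (hD2 d) (hD d)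
    refine ⟨fun m d => 8 * (m + 1) ^ 2 * (K m d + 2), ?_⟩
    intro m d P ρ a hm hρ hPd hP ha F x y hFd hirr hxy
    obtain ⟨B, hanc, hBa⟩ := Pool.Agent.Y910.A.split_thr (K := K m d) hm hρ hPd hP (le_refl _) ha
    rcases hK m d hanc hBa F x y hFd hirr hxy with h | h
    · left
      refine h.trans (Nat.pow_le_pow_right (Nat.mul_pos ?_ ?_) ?_)
      · have hB := hanc.two_le
        have h1 : (1 : ℝ) ≤ ((a.natAbs : ℕ) : ℝ) := (one_le_pow₀ (by linarith)).trans hBa
        exact_mod_cast h1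
      · exact Pool.Agent.Y910.G.len_pos (ne_zero_of hirr)
      · have h1 : 1 ≤ 8 * (m + 1) ^ 2 := Nat.mul_pos (by norm_num) (by positivity)
        show K m d ≤ 8 * (m + 1) ^ 2 * (K m d + 2)
        nlinarith
    · exact Or.inr h
  · choose K hK1 hK using fun r d => final (R := r) (e := r ^ 3 + r ^ 2 + 1) (hD2 d) (hD d)
    refine ⟨fun r d => Pool.Agent.Y910.A.tc r * (K r d + 2), ?_⟩
    intro r d P g₀ a μ hr hm hPd hg hgP hg2 ha hμ0 hμ F x y hFd hirr hxy
    obtain ⟨B, hanc, hBa⟩ := Pool.Agent.Y910.A.pure_thr (K := K r d) hr hm hPd hg hgP hg2 (le_refl _)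
      ha hμ0 hμ
    rcases hK r d hanc hBa F x y hFd hirr hxy with h | h
    · left
      refine h.trans (Nat.pow_le_pow_right (Nat.mul_pos ?_ ?_) ?_)
      · have hB := hanc.two_le
        have h1 : (1 : ℝ) ≤ (a : ℝ) := (one_le_pow₀ (by linarith)).trans hBa
        exact_mod_cast h1
      · exact Pool.Agent.Y910.G.len_pos (ne_zero_of hirr)
      · have h1 : 1 ≤ Pool.Agent.Y910.A.tc r := by unfold Pool.Agent.Y910.A.tc; omega
        show K r d ≤ Pool.Agent.Y910.A.tc r * (K r d + 2)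
        nlinarith
    · exact Or.inr h
  · intro r p q hr hp hq hpq
    obtain ⟨C1, h1⟩ := Pool.Agent.Y910.A.binom_fam r p q hr hp hq hpq
    obtain ⟨C2, h2⟩ := Pool.Agent.Y910.A.split_fam r p q hr hp hq hpq
    refine ⟨C1 + C2, ?_, ?_⟩
    · intro a s R hs ha hR x y hxy
      have ha1 : (2 * (1 + s.natAbs)) ^ C1 ≤ a :=
        (Nat.pow_le_pow_right (by omega) (by omega)).trans ha
      have ha0 : 0 < a := lt_of_lt_of_le (by positivity) ha
      obtain ⟨hx, hy⟩ := h1 a s R hs ha1 hR x y hxy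
      refine (max_le hx hy).trans ?_
      exact Nat.pow_le_pow_right (Nat.mul_pos ha0 (by omega)) (by omega)
    · intro ρ s c a R hρ hc ha hR x y hxy
      have hc1 : 1 ≤ c.natAbs := by omega
      have ha1 : (2 * (∏ i, (1 + (ρ i).natAbs + (s i).natAbs) + c.natAbs)) ^ C2 ≤ a.natAbs :=
        (Nat.pow_le_pow_right (by omega) (by omega)).trans ha
      have ha0 : 0 < a.natAbs := lt_of_lt_of_le (by positivity) ha
      obtain ⟨hx, hy⟩ := h2 ρ s c a R hρ hc ha1 hR x y hxy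
      refine (max_le hx hy).trans ?_
      exact Nat.pow_le_pow_right (Nat.mul_pos ha0 (by omega)) (by omega)

end Pool.Agent.Results.MP_821da1_nt.ExplicitFamiliesAllCurves
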