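import Pool.Agent.Y910.A.A11

set_option autoImplicit false

open IntermediateField

namespace Pool.Agent.Results.MP_821da1_nt.RepulsionAllCurves

/-- The length of an integer polynomial: the sum of the absolute values of its coefficients. -/
def len (F : MvPolynomial (Fin 2) ℤ) : ℕ := ∑ m ∈ F.support, (F.coeff m).natAbs

/-- The coordinate ring over `ℚ` of the affine plane curve `F = 0`. -/
abbrev CoordRing (F : MvPolynomial (Fin 2) ℤ) : Type :=
  MvPolynomial (Fin 2) ℚ ⧸ Ideal.span {MvPolynomial.map (Int.castRingHom ℚ) F}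

/-- `A` is a place at infinity of the curve `F = 0`: a valuation ring of its function field `L`
that contains `ℚ` but not both coordinate functions. -/
def AtInfinity (F : MvPolynomial (Fin 2) ℤ) (L : Type) [Field L] [Algebra (CoordRing F) L]
    (A : ValuationSubring L) : Prop :=
  (∀ q : ℚ, algebraMap (CoordRing F) L (algebraMap ℚ (CoordRing F) q) ∈ A) ∧
    ∃ i : Fin 2, algebraMap (CoordRing F) L (Ideal.Quotient.mk _ (MvPolynomial.X i)) ∉ A

/-- The curve `F = 0`, with function field `L`, has exactly one place at infinity, and the residue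
field of this place is `ℚ[T]/(g)`, where `g` is monic and irreducible. -/
def OnePlace (F : MvPolynomial (Fin 2) ℤ) (g : Polynomial ℚ) : Prop :=
  g.Monic ∧ Irreducible g ∧ ∃ (L : Type) (_ : Field L) (_ : Algebra (CoordRing F) L)
    (_ : IsFractionRing (CoordRing F) L) (A : ValuationSubring L),
    (∀ A' : ValuationSubring L, AtInfinity F L A' ↔ A' = A) ∧
      Nonempty (IsLocalRing.ResidueField A ≃+* AdjoinRoot g)

/-- the structure theorem for the curve `F = 0`, for a given function field -/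
lemma bridge_aux {C : ℕ} {F : MvPolynomial (Fin 2) ℤ} {x y : ℤ}
    (hC : ∀ (L : Type) [Field L] [Algebra ℚ L] (π : MvPolynomial (Fin 2) ℚ →ₐ[ℚ] L),
    (∀ w, π w = 0 ↔ MvPolynomial.map (Int.castRingHom ℚ) F ∣ w) →
    (∀ z : L, ∃ w1 w2, π w2 ≠ 0 ∧ π w2 * z = π w1) →
      max x.natAbs y.natAbs ≤ (C * Pool.Agent.H322R2.len F) ^ C ∨
      ∃ g : Polynomial ℚ, Pool.Agent.Y910.A.OnePlace π g ∧ ∃ η : ℝ, Polynomial.aeval η g = 0 ∧
        Pool.Agent.Y910.A.Near C (((C * Pool.Agent.H322R2.len F : ℕ) : ℝ))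
          (((max x.natAbs y.natAbs : ℕ) : ℝ)) ℚ⟮η⟯)
    (L : Type) [Field L] [Algebra (CoordRing F) L] [IsFractionRing (CoordRing F) L] :
    Pool.Agent.Y910.A.SD C F (OnePlace F) (max x.natAbs y.natAbs) := by
  have : Nontrivial (CoordRing F) := (algebraMap (CoordRing F) L).domain_nontrivial
  let _ : Algebra ℚ L :=
    ((algebraMap (CoordRing F) L).comp (algebraMap ℚ (CoordRing F))).toAlgebra
  obtain ⟨π, hπ⟩ : ∃ π : MvPolynomial (Fin 2) ℚ →ₐ[ℚ] L, ∀ w, π w
      = algebraMap (CoordRing F) L (Ideal.Quotient.mk _ w) :=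
    ⟨{ toRingHom := (algebraMap (CoordRing F) L).comp (Ideal.Quotient.mk _)
       commutes' := fun q => rfl }, fun w => rfl⟩
  have hker : ∀ w, π w = 0 ↔ MvPolynomial.map (Int.castRingHom ℚ) F ∣ w := by
    intro w
    rw [hπ, IsFractionRing.to_map_eq_zero_iff, Ideal.Quotient.eq_zero_iff_mem,
      Ideal.mem_span_singleton]
  have hsurj : ∀ z : L, ∃ w1 w2, π w2 ≠ 0 ∧ π w2 * z = π w1 := by
    intro z
    obtain ⟨a, s, hs, hz⟩ := IsFractionRing.div_surjective (A := CoordRing F) z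
    obtain ⟨w1, rfl⟩ := Ideal.Quotient.mk_surjective a
    obtain ⟨w2, rfl⟩ := Ideal.Quotient.mk_surjective s
    have hne : π w2 ≠ 0 := by
      rw [hπ]
      exact IsFractionRing.to_map_ne_zero_of_mem_nonZeroDivisors hs
    refine ⟨w1, w2, hne, ?_⟩
    rw [← hz, ← hπ, ← hπ]
    field_simp
  rcases hC L π hker hsurj with h | ⟨g, ⟨A, hA, h1, h2, h3⟩, h4⟩
  · exact Or.inl h
  · right
    refine ⟨g, ⟨h1, h2, L, inferInstance, inferInstance, inferInstance, A, ?_, h3⟩, h4⟩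
    intro A'
    rw [← hA A', AtInfinity]
    apply and_congr Iff.rfl
    rw [Fin.exists_fin_two, hπ, hπ]
    tauto

/-- the structure theorem for the curve `F = 0` -/
lemma bridge {C : ℕ} {F : MvPolynomial (Fin 2) ℤ} {x y : ℤ}
    (hirr : Irreducible (MvPolynomial.map (Int.castRingHom ℚ) F))
    (hC : ∀ (L : Type) [Field L] [Algebra ℚ L] (π : MvPolynomial (Fin 2) ℚ →ₐ[ℚ] L),
    (∀ w, π w = 0 ↔ MvPolynomial.map (Int.castRingHom ℚ) F ∣ w) →
    (∀ z : L, ∃ w1 w2, π w2 ≠ 0 ∧ π w2 * z = π w1) →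
      max x.natAbs y.natAbs ≤ (C * Pool.Agent.H322R2.len F) ^ C ∨
      ∃ g : Polynomial ℚ, Pool.Agent.Y910.A.OnePlace π g ∧ ∃ η : ℝ, Polynomial.aeval η g = 0 ∧
        Pool.Agent.Y910.A.Near C (((C * Pool.Agent.H322R2.len F : ℕ) : ℝ))
          (((max x.natAbs y.natAbs : ℕ) : ℝ)) ℚ⟮η⟯) :
    Pool.Agent.Y910.A.SD C F (OnePlace F) (max x.natAbs y.natAbs) := by
  have hprime : (Ideal.span {MvPolynomial.map (Int.castRingHom ℚ) F}).IsPrime :=
    (Ideal.span_singleton_prime hirr.ne_zero).2 hirr.prime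
  have hdom : IsDomain (CoordRing F) := Ideal.Quotient.isDomain _
  exact bridge_aux hC (FractionRing (CoordRing F))

lemma ne_zero_of {F : MvPolynomial (Fin 2) ℤ}
    (hirr : Irreducible (MvPolynomial.map (Int.castRingHom ℚ) F)) : F ≠ 0 := by
  rintro rfl
  rw [map_zero] at hirr
  exact hirr.ne_zero rfl

/-- Part 1 (large points repel): let `F₁`, `F₂` be irreducible over `ℚ`, of degree at most `d`. If
`F₁ = 0` has an integer point of size `m₁ > (C(d) len F₁)^C(d)`, then it has exactly one place at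
infinity, whose residue field has a real embedding `ℚ(η₁)`, such that every integer point of
`F₂ = 0` has size at most `(m₁ len F₂)^C(d)`, unless `F₂ = 0` has exactly one place at infinity,
whose residue field has a real embedding `ℚ(η₂)` with
`3 [ℚ(η₁,η₂) : ℚ] > [ℚ(η₁) : ℚ] [ℚ(η₂) : ℚ]`.
Part 2 (one constant for each subfield of degree at least three). -/
theorem result :
    (∃ C : ℕ → ℕ, ∀ (d : ℕ) (F₁ : MvPolynomial (Fin 2) ℤ) (x₁ y₁ : ℤ), F₁.totalDegree ≤ d →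
      Irreducible (MvPolynomial.map (Int.castRingHom ℚ) F₁) →
      MvPolynomial.eval ![x₁, y₁] F₁ = 0 →
      (C d * len F₁) ^ C d < max x₁.natAbs y₁.natAbs →
      ∃ g₁ : Polynomial ℚ, OnePlace F₁ g₁ ∧ ∃ η₁ : ℝ, Polynomial.aeval η₁ g₁ = 0 ∧
        ∀ (F₂ : MvPolynomial (Fin 2) ℤ) (x₂ y₂ : ℤ), F₂.totalDegree ≤ d →
          Irreducible (MvPolynomial.map (Int.castRingHom ℚ) F₂) →
          MvPolynomial.eval ![x₂, y₂] F₂ = 0 →
          max x₂.natAbs y₂.natAbs ≤ (max x₁.natAbs y₁.natAbs * len F₂) ^ C d ∨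
          ∃ g₂ : Polynomial ℚ, OnePlace F₂ g₂ ∧ ∃ η₂ : ℝ, Polynomial.aeval η₂ g₂ = 0 ∧
            g₁.natDegree * g₂.natDegree < 3 * Module.finrank ℚ ↥(ℚ⟮η₁⟯ ⊔ ℚ⟮η₂⟯)) ∧
    (∃ (C : ℕ → ℕ) (c : ℕ → IntermediateField ℚ ℝ → ℕ), ∀ (d : ℕ) (F : MvPolynomial (Fin 2) ℤ)
      (x y : ℤ), F.totalDegree ≤ d → Irreducible (MvPolynomial.map (Int.castRingHom ℚ) F) →
      MvPolynomial.eval ![x, y] F = 0 →
      max x.natAbs y.natAbs ≤ (C d * len F) ^ C d ∨
      ∃ g : Polynomial ℚ, OnePlace F g ∧ ∃ η : ℝ, Polynomial.aeval η g = 0 ∧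
        ∀ k : IntermediateField ℚ ℝ, k ≤ ℚ⟮η⟯ → 3 ≤ Module.finrank ℚ k →
          max x.natAbs y.natAbs ≤ (c d k * len F) ^ C d) := by
  choose C hC2 hC using Pool.Agent.Y910.A.struct_le
  constructor
  · choose K hCK hK using fun d => Pool.Agent.Y910.A.repel (C d) (hC2 d)
    refine ⟨K, ?_⟩
    intro d F₁ x₁ y₁ hd₁ hirr₁ hxy₁ hbig
    obtain ⟨g₁, hg₁, η₁, hη₁, h⟩ := hK d F₁ (OnePlace F₁) (max x₁.natAbs y₁.natAbs)
      (ne_zero_of hirr₁) (fun g hg => ⟨hg.1, hg.2.1⟩)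
      (bridge hirr₁ (fun L _ _ π hker hsurj => hC d F₁ hd₁ hirr₁ L π hker hsurj x₁ y₁ hxy₁)) hbig
    refine ⟨g₁, hg₁, η₁, hη₁, ?_⟩
    intro F₂ x₂ y₂ hd₂ hirr₂ hxy₂
    exact h F₂ (OnePlace F₂) (max x₂.natAbs y₂.natAbs) (ne_zero_of hirr₂)
      (fun g hg => ⟨hg.1, hg.2.1⟩)
      (bridge hirr₂ (fun L _ _ π hker hsurj => hC d F₂ hd₂ hirr₂ L π hker hsurj x₂ y₂ hxy₂))
  · choose K hCK hK using fun d => Pool.Agent.Y910.A.class_const (C d) (hC2 d)
    choose c hc1 hc using hK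
    refine ⟨K, fun d k => if h : 3 ≤ Module.finrank ℚ k then c d k h else 0, ?_⟩
    intro d F x y hd hirr hxy
    have hF0 := ne_zero_of hirr
    have hlen : 1 ≤ len F := Pool.Agent.Y910.G.len_pos hF0
    rcases bridge hirr (fun L _ _ π hker hsurj => hC d F hd hirr L π hker hsurj x y hxy) with
      h | ⟨g, hg, η, hη, hn⟩
    · left
      refine h.trans ?_
      exact (Nat.pow_le_pow_right (Nat.mul_pos (by have := hC2 d; omega) hlen) (hCK d)).trans
        (Nat.pow_le_pow_left (Nat.mul_le_mul_right _ (hCK d)) _)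
    · right
      refine ⟨g, hg, η, hη, ?_⟩
      intro k hk h3
      have e : (if h : 3 ≤ Module.finrank ℚ k then c d k h else 0) = c d k h3 := dif_pos h3
      show max x.natAbs y.natAbs
        ≤ ((if h : 3 ≤ Module.finrank ℚ k then c d k h else 0) * len F) ^ K d
      rw [e]
      exact hc d k h3 F _ η hF0 hn hk

end Pool.Agent.Results.MP_821da1_nt.RepulsionAllCurves
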